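import Pool.Agent.H87.Brt.Fi
import Pool.Agent.H87.Bra.Cw

set_option autoImplicit false

/-!
# The word problem for Artin groups: blocks of generators

Let the generators of an Artin group be divided into blocks such that all labels between
generators of different blocks are even or infinite, and such that for any two blocks either all
labels between them are `2` or none is. Then the word problem of the Artin group is solvable if
every block is of type `A`, `B`, `D` or affine `A` or has at most two generators; and if the labels
inside the blocks are arbitrary, then it is solvable if and only if it is solvable for every block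
with at least three generators.

Proof. If `X` is a new block and `B` the parabolic subgroup of the old blocks, then the kernel of
the retraction to `B` is a group over a geometry of points (the conjugates of the letters of `X`,
indexed by cosets of the parabolic subgroup of the blocks commuting with `X`) and lines
(conjugates of `A_X` and free groups from the dihedral subgroups). By induction over all sets of
blocks this geometry has no triangles and all line groups satisfy small cancellation, so there
are normal forms; and by a second induction the double coset conditions in these normal forms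
(membership in `A_T ⟨z⟩ A_T`, `⟨z⟩ A_T ⟨y⟩`, `A_T ⟨z⟩ A_T ⟨y⟩`) have recursively enumerable
complements. The Artin groups of type `A` act faithfully on free groups (Artin), and those of
types `B`, affine `A` and `D` embed in semidirect products of free groups with them.
-/

namespace Pool.Agent.Results.MP_a1ec0a_al.BlockReduction

/-- The Artin group on `Fin n` with labels `m` (`0` stands for infinity). -/
abbrev Artin {n : ℕ} (m : Fin n → Fin n → ℕ) : Type :=
  PresentedGroup
    {r : FreeGroup (Fin n) | ∃ i j : Fin n, m i j ≠ 0 ∧
      r = ((CoxeterSystem.alternatingWord i j (m i j)).map FreeGroup.of).prod *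
        (((CoxeterSystem.alternatingWord j i (m i j)).map FreeGroup.of).prod)⁻¹}

/-- The Artin group with labels `m` has solvable word problem: it is decidable whether a word in
the generators (`true`) and their inverses (`false`) represents the identity. -/
def Solvable {n : ℕ} (m : Fin n → Fin n → ℕ) : Prop :=
  ComputablePred (fun u : List (Fin n × Bool) =>
    (u.map (fun a => if a.2 then (PresentedGroup.of a.1 : Artin m)
      else (PresentedGroup.of a.1)⁻¹)).prod = 1)

/-- The generators are divided into blocks by `β`; `e` lists the generators of one block. -/
def IsBlock {n a : ℕ} (β : Fin n → ℕ) (e : Fin a → Fin n) : Prop :=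
  Function.Injective e ∧ ∃ b, ∀ s, (∃ i, e i = s) ↔ β s = b

/-- Type `A`: the path `0, 1, ..., a - 1` with labels `3`; all other labels are `2`. -/
def typeA (a : ℕ) (i j : Fin a) : ℕ :=
  if i = j then 1 else if (i : ℕ) + 1 = j ∨ (j : ℕ) + 1 = i then 3 else 2

/-- Type `B`: the same path, but its last label is `4`. -/
def typeB (a : ℕ) (i j : Fin a) : ℕ :=
  if i = j then 1 else if (i : ℕ) + 1 = j ∨ (j : ℕ) + 1 = i then
    (if (i : ℕ) + 1 = a ∨ (j : ℕ) + 1 = a then 4 else 3) else 2

/-- Type `D`: the path `0, 1, ..., a - 2` with labels `3`, and `a - 1` is joined to `1` with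
label `3`; all other labels are `2`. -/
def typeD (a : ℕ) (i j : Fin a) : ℕ :=
  if i = j then 1 else
    if (i : ℕ) + 1 = j ∧ (j : ℕ) + 1 < a ∨ (j : ℕ) + 1 = i ∧ (i : ℕ) + 1 < a ∨
      (i : ℕ) = 1 ∧ (j : ℕ) + 1 = a ∨ (j : ℕ) = 1 ∧ (i : ℕ) + 1 = a then 3 else 2

/-- Type affine `A`: the cycle `0, 1, ..., a - 1` with labels `3`; all other labels are `2`. -/
def typeAffineA (a : ℕ) (i j : Fin a) : ℕ :=
  if i = j then 1 else if ((i : ℕ) + 1) % a = j ∨ ((j : ℕ) + 1) % a = i then 3 else 2

/-- The labels are those of type `A`, `B`, `D` or affine `A`, up to renaming the generators. -/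
def Classical {a : ℕ} (m : Fin a → Fin a → ℕ) : Prop :=
  ∃ N, (N = typeA a ∨ N = typeB a ∨ N = typeD a ∨ N = typeAffineA a) ∧
    ∃ σ : Equiv.Perm (Fin a), ∀ i j, m i j = N (σ i) (σ j)

/-- Let the labels between different blocks be even or infinite, and let for any two blocks all
labels between them be `2` if one of them is `2`. Then the Artin group of `M` has solvable word
problem if all blocks with at least three generators are of type `A`, `B`, `D` or affine `A`; and
for arbitrary blocks it has solvable word problem if and only if this is the case for all blocks
with at least three generators. -/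
theorem result (n : ℕ) (M : CoxeterMatrix (Fin n)) (β : Fin n → ℕ)
    (even : ∀ i j, β i ≠ β j → Even (M i j))
    (homogeneous : ∀ i j i' j', β i = β i' → β j = β j' → β i ≠ β j →
      M i j = 2 → M i' j' = 2) :
    ((∀ (a : ℕ) (e : Fin a → Fin n), 3 ≤ a → IsBlock β e →
      Classical (fun i j => M (e i) (e j))) → Solvable M) ∧
    (Solvable M ↔ ∀ (a : ℕ) (e : Fin a → Fin n), 3 ≤ a → IsBlock β e →
      Solvable (fun i j => M (e i) (e j))) := by
  have key := Pool.Agent.H87.Brt.block_solv n M β even homogeneous
  refine ⟨fun h => key.mpr fun a e ha hb => ?_, key⟩
  obtain ⟨N, hN, σ, hσ⟩ := h a e ha hb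
  rcases hN with rfl | rfl | rfl | rfl
  · exact Pool.Agent.H87.Bra.cw_A _ σ hσ
  · exact Pool.Agent.H87.Bra.cw_B (by omega) _ σ hσ
  · exact Pool.Agent.H87.Bra.cw_D ha _ σ hσ
  · exact Pool.Agent.H87.Bra.cw_cyc ha _ σ hσ

end Pool.Agent.Results.MP_a1ec0a_al.BlockReduction
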