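import Pool.Agent.H2.AW3.FC

/-!
# MP_a1ec0a_al: generators that occur at most three times outside an arbitrary set

Let `M` be an arbitrary Coxeter matrix, `Y` a set of generators and `w` a word in which every generator
outside `Y` has at most three syllables, all with odd exponents; the generators in `Y` may occur
arbitrarily. Then `w = 1` in the Artin group `A_M` if and only if `w = 1` in the Artin group of one of
the following matrices `pairUp M Y p`: every generator `s` outside `Y` with three syllables is given a
partner `p s` with label `3`; the labels in `Y`, the labels `2` and the labels `3` of the partners are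
kept, all other labels are replaced by infinity. If `w = 1`, the pairing `p` is unique.

If the parabolic subgroup of `Y` is of FC type and there is no label `3` between `Y` and its
complement, then the new Artin groups are of FC type, where the word problem is solved.
-/

set_option autoImplicit false

namespace Pool.Agent.Results.MP_a1ec0a_al.FewOccurrencesOutside

open Pool.Agent.K7.H20.AW Pool.Agent.H2.AW3

theorem result {S : Type*} [Fintype S] [DecidableEq S] (M : CoxeterMatrix S) (Y : Finset S)
    (w : List (S × ℤ))
    (hw : ∀ s, s ∉ Y → syllables s w ≤ 3 ∧ ∀ q ∈ w, q.1 = s → Odd q.2) :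
    (value M w = 1 ↔ ∃! p : S → S, IsPairing M Y w p ∧ value (pairUp M Y p) w = 1) ∧
      (FCType M (Y : Set S) → (∀ s ∈ Y, ∀ t, t ∉ Y → M s t ≠ 3) →
        ∀ p : S → S, IsPairing M Y w p → FCType (pairUp M Y p) Set.univ) := by
  refine ⟨?_, fun hY h3 p hp => fc_main hY h3 hp⟩
  rw [value_iff w, rel_main hw]
  constructor
  · rintro ⟨p, ⟨h1, h2⟩, h3⟩
    exact ⟨p, ⟨h1, (value_iff w).2 h2⟩, fun q hq => h3 q ⟨hq.1, (value_iff w).1 hq.2⟩⟩
  · rintro ⟨p, ⟨h1, h2⟩, h3⟩
    exact ⟨p, ⟨h1, (value_iff w).1 h2⟩, fun q hq => h3 q ⟨hq.1, (value_iff w).2 hq.2⟩⟩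

end Pool.Agent.Results.MP_a1ec0a_al.FewOccurrencesOutside
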