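import Mathlib
import Pool.Agent.H34.RO.Art2
import Pool.Agent.H34.RO.Bits
import Pool.Agent.H34.TH.Norm

/-!
# The word problem for all Artin groups: a threshold for the number of failures

An Artin group of rank `n` is given by its `n (n - 1) / 2` labels `m_ij ∈ {2, 3, …, ∞}`, so for each
word there are about `H ^ (n (n - 1) / 2)` Artin groups of rank `n` with labels up to `H`. We ask how
many of these an algorithm for the word problem has to get wrong. We say that it has few failures up
to codimension `e` if it fails (does not halt or gives the wrong answer) for at most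
`K(n, w) (H + 1) ^ (n (n - 1) / 2 - e)` of them, where `K` is computable.

1. Codimension one is possible: there is an algorithm which always halts, is always right when it
says that a word is trivial, and which fails for at most `K(n, w) (H + 1) ^ (n (n - 1) / 2 - 1)` of
the groups, with an explicit `K`.

2. If the codimension `f(n)` is a computable unbounded function of the rank, no matter how slowly it
grows, then this is as hard as the word problem for all Artin groups, uniformly in the labels, even
if we allow for randomised algorithms which use any number of random bits, need not halt always,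
and are successful with probability `1 / k` only; or for programs which depend on `n` and `H` and are
not longer than a description of `H`, up to a constant.

3. Codimension `r (r - 1) / 2 + 1` is as hard as the word problem for all Artin groups of rank `r`,
again for such randomised algorithms.

Proof. 1. A word which is not trivial in the free group is not trivial in any Artin group whose
labels are infinite or at least `2 |w| + 3`: we choose a representation by products of
transvections `1 + E_i`, where `E_i ^ 2 = 0`, `E_i E_j E_i = -4 cos ^ 2 (π t_ij / m_ij) E_i`; an entry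
of the matrix for the word is a polynomial in each of the free parameters, and since it is not zero
and has small degree we can choose the numbers `t_ij` one after the other. 2, 3. An Artin group is
a retract of the groups of larger rank with even or infinite labels between old and new generators. A
majority vote among these for the rank `N` gives randomised candidates for the answers for all small
inputs. Choose a finite set of inputs for which the limit superior (over `N`) of the probability to
halt is almost minimal: then for every larger finite set of inputs there are infinitely many `N` for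
which one sees the behaviour of almost all candidates which halt on the first set. Enlarge this set
such that, for such `N`, the candidates which are right on it but wrong on a further input `x` never
have probability more than `1 / (2 k)`, if `N` is suitable. Since the right candidates have
probability at least `1 / k`, the answer for `x` which is given by few of the candidates that are
right on the set is the wrong one.
-/

set_option autoImplicit false

namespace Pool.Agent.Results.MP_a1ec0a_al.SmallProbabilityOfSuccess

open Pool.Agent.Q324.SC Pool.Agent.Q324.SC.Art Pool.Agent.Q287.BA Pool.Agent.H34.RO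
open Pool.Agent.H34.TH
open Pool.Agent.Q324.SC.Mat (tri two_tri tri_mono tri_succ)

/-- `A` has few failures, up to codimension `e`, for the word `w` among the Artin groups of rank `n`
with labels in `[0, H]` (the labels `0` and `1` stand for `∞`). -/
def FewFailures (e : ℕ) (K : ℕ × List (ℕ × Bool) → ℕ) (A : Inp →. Bool) (n H : ℕ)
    (w : List (ℕ × Bool)) : Prop :=
  {l | l ∈ Labels n H ∧ ¬ ∃ b ∈ A (n, l, w), (b = true ↔ WP (n, l, w))}.encard
    * ((H + 1) ^ e : ℕ) ≤ ((K (n, w) * (H + 1) ^ (n * (n - 1) / 2) : ℕ) : ℕ∞)

/-- `A (σ, ·)` is a randomised algorithm, where `σ` is the list of the random bits used so far: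
further random bits do not change an output. -/
def Randomised (A : List Bool × Inp →. Bool) : Prop :=
  Partrec A ∧ ∀ σ τ p b, b ∈ A (σ, p) → b ∈ A (σ ++ τ, p)

/-- For all `n`, `H` and each finite set `W` of words the randomised algorithm `A` has, with
probability at least `1 / k`, few failures up to codimension `f n` for each word in `W`. -/
def SucceedsWithProbability (f : ℕ → ℕ) (k : ℕ) (K : ℕ × List (ℕ × Bool) → ℕ)
    (A : List Bool × Inp →. Bool) : Prop :=
  ∀ (n H : ℕ) (W : Finset (List (ℕ × Bool))), ∃ l, 2 ^ l ≤ k * {σ : List Bool | σ.length = l ∧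
    ∀ w ∈ W, FewFailures (f n) K (fun p => A (σ, p)) n H w}.ncard

/-- For all `n`, `H` one of the first `c * (H + 1)` programs computes `H` from `n` and has few
failures up to codimension `f n` for each word. -/
def ShortPrograms (f : ℕ → ℕ) (c : ℕ) (K : ℕ × List (ℕ × Bool) → ℕ) (size : ℕ × ℕ →. ℕ)
    (A : ℕ × Inp →. Bool) : Prop :=
  ∀ n H : ℕ, ∃ i < c * (H + 1), H ∈ size (i, n) ∧ ∀ w, FewFailures (f n) K (fun p => A (i, p)) n H w

lemma few_of_solves (e : ℕ) (inst : DecidablePred WP) (n H : ℕ)
    (w : List (ℕ × Bool)) :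
    FewFailures e (fun _ => 0) (fun p => Part.some (decide (WP p))) n H w := by
  have h1 : {l | l ∈ Labels n H ∧ ¬ ∃ b ∈ Part.some (decide (WP (n, l, w))),
      (b = true ↔ WP (n, l, w))} = ∅ := by
    ext p
    simp
  unfold FewFailures
  rw [h1, Set.encard_empty, zero_mul]
  exact bot_le

lemma FewFailures.mono {d e : ℕ} {K : ℕ × List (ℕ × Bool) → ℕ} {A : Inp →. Bool} {n H : ℕ}
    {w : List (ℕ × Bool)} (h : FewFailures e K A n H w) (hde : d ≤ e) :
    FewFailures d K A n H w := by
  unfold FewFailures at h ⊢
  refine le_trans (mul_le_mul' le_rfl ?_) h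
  exact_mod_cast Nat.pow_le_pow_right (by omega) hde

lemma cV' : Computable (fun p : Inp => decide (Valid p)) := by
  have := valid_primrec.decide.to_comp
  exact this.of_eq fun p => by simp

/-- the case of randomised algorithms -/
theorem of_random {k : ℕ} {K : ℕ × List (ℕ × Bool) → ℕ} (hK : Computable K) {f ρ e : ℕ → ℕ}
    (cρ : Computable ρ) (ce : Computable e) (hρ : ∀ j, j ≤ ρ j) (he : ∀ j, e j ≤ f (ρ j))
    {A : List Bool × Inp →. Bool} (hA : Randomised A) (h : SucceedsWithProbability f k K A) :
    ∃ D : Inp →. Bool, Partrec D ∧ ∀ p,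
      (Valid p ∧ ∀ᶠ j in Filter.atTop, tri p.1 + 1 ≤ e j) →
      ∃ b, D p = Part.some b ∧ (b = true ↔ WP p) := by
  classical
  refine genC k (K := K) cρ ce hρ
    (f := fun x : (ℕ × ℕ) × (ℕ × Inp) => A (bits x.1.1 x.1.2, x.2.2))
    (z := fun x : (ℕ × ℕ) × ℕ => Part.some (hb K x.2))
    (hA.1.comp ((bits_primrec.to_comp.comp Computable.fst).pair
      (Computable.snd.comp Computable.snd)))
    (by
      rintro l l' i ⟨_, p⟩ b hl hb
      change b ∈ A (bits l (i % 2 ^ l), p) at hb
      change b ∈ A (bits l' i, p)
      rw [bits_mod l l i le_rfl] at hb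
      obtain ⟨τ, hτ⟩ := bits_prefix l l' i hl
      rw [hτ]
      exact hA.2 _ τ p b hb)
    ((hb_comp hK).comp Computable.snd).partrec
    (fun _ _ _ _ _ _ hb => hb) ?_
  intro j V
  obtain ⟨N, hN⟩ : ∃ N, N = ρ j := ⟨_, rfl⟩
  have he' : e j ≤ f N := hN ▸ he j
  rw [← hN]
  obtain ⟨l, hl⟩ := h N (hb K N) V.toFinset
  refine ⟨l, (Finset.range (2 ^ l)).filter fun i =>
    ∀ w ∈ V.toFinset, FewFailures (f N) K (fun p => A (bits l i, p)) N (hb K N) w,
    Finset.filter_subset _ _, ?_, ?_⟩
  · refine hl.trans (Nat.mul_le_mul_left _ ?_)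
    refine (Set.ncard_le_ncard (t := ((Finset.image (bits l) ((Finset.range (2 ^ l)).filter
      fun i => ∀ w ∈ V.toFinset, FewFailures (f N) K (fun p => A (bits l i, p)) N (hb K N) w) :
        Finset (List Bool)) : Set (List Bool))) ?_ (Finset.finite_toSet _)).trans ?_
    · rintro σ ⟨h1, h2⟩
      obtain ⟨i, hi, hi2⟩ := bits_surj σ
      rw [h1] at hi hi2
      rw [Finset.mem_coe, Finset.mem_image]
      refine ⟨i, ?_, hi2⟩
      rw [Finset.mem_filter, Finset.mem_range, hi2]
      exact ⟨hi, h2⟩
    · rw [Set.ncard_coe_finset]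
      exact Finset.card_image_le
  · intro i hi
    rw [Finset.mem_filter] at hi
    refine ⟨hb K N, le_rfl, Part.mem_some _, fun w hw => ?_⟩
    have h1 := (hi.2 w (List.mem_toFinset.2 hw)).mono he'
    unfold FewFailures at h1
    exact h1

/-- the case of an unbounded codimension -/
theorem of_random_unbounded {k : ℕ} {K : ℕ × List (ℕ × Bool) → ℕ} (hK : Computable K) {f : ℕ → ℕ}
    (hf : Computable f) (hf2 : ∀ a, ∃ n, a ≤ f n) {A : List Bool × Inp →. Bool}
    (hA : Randomised A) (h : SucceedsWithProbability f k K A) : ComputablePred WP := by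
  classical
  obtain ⟨ρ, cρ, hρ⟩ := exists_rho hf hf2
  obtain ⟨D, hD, hD2⟩ := of_random hK cρ (e := fun j => j) Computable.id (fun j => (hρ j).1)
    (fun j => (hρ j).2) hA h
  refine total (D := fun p => cond (decide (Valid p)) (D p) (Part.some false))
    (Partrec.cond cV' hD (Computable.const false).partrec) fun p => ?_
  by_cases hv : Valid p
  · obtain ⟨b, hb, hb2⟩ := hD2 p ⟨hv, Filter.eventually_ge_atTop _⟩
    exact ⟨b, by simp [hv, hb], hb2⟩
  · exact ⟨false, by simp [hv], by simpa using fun hw : WP p => hv hw.1⟩

/-- the case of a bounded codimension -/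
theorem of_random_rank {k r : ℕ} {K : ℕ × List (ℕ × Bool) → ℕ} (hK : Computable K)
    {A : List Bool × Inp →. Bool} (hA : Randomised A)
    (h : SucceedsWithProbability (fun _ => r * (r - 1) / 2 + 1) k K A) :
    ComputablePred (fun p : Inp => p.1 ≤ r ∧ WP p) := by
  classical
  obtain ⟨D, hD, hD2⟩ := of_random hK (ρ := fun j => j) (e := fun _ => tri r + 1) Computable.id
    (Computable.const _) (fun j => le_rfl) (fun j => le_rfl) hA h
  have c1 : Computable (fun p : Inp => decide (Valid p) && decide (p.1 ≤ r)) := by
    have h1 : Primrec (fun p : Inp => decide (p.1 ≤ r)) := by fun_prop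
    exact Primrec.and.to_comp.comp cV' h1.to_comp
  refine total (D := fun p => cond (decide (Valid p) && decide (p.1 ≤ r)) (D p) (Part.some false))
    (Partrec.cond c1 hD (Computable.const false).partrec) fun p => ?_
  by_cases hv : Valid p ∧ p.1 ≤ r
  · obtain ⟨b, hb, hb2⟩ := hD2 p ⟨hv.1, Filter.Eventually.of_forall fun _ =>
      Nat.succ_le_succ (tri_mono hv.2)⟩
    refine ⟨b, by simp [hv.1, hv.2, hb], ?_⟩
    rw [hb2]
    exact ⟨fun h => ⟨hv.2, h⟩, fun h => h.2⟩
  · refine ⟨false, ?_, by simpa using fun hr (hw : WP p) => hv ⟨hw.1, hr⟩⟩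
    have : (decide (Valid p) && decide (p.1 ≤ r)) = false := by
      rw [Bool.eq_false_iff]
      intro h
      rw [Bool.and_eq_true, decide_eq_true_eq, decide_eq_true_eq] at h
      exact hv h
    rw [this]
    rfl

/-- the case of short programs -/
theorem of_programs {c : ℕ} {K : ℕ × List (ℕ × Bool) → ℕ} (hK : Computable K) {f : ℕ → ℕ}
    (hf : Computable f) (hf2 : ∀ a, ∃ n, a ≤ f n)
    {size : ℕ × ℕ →. ℕ} (hs : Partrec size) {A : ℕ × Inp →. Bool} (hA : Partrec A)
    (h : ShortPrograms f c K size A) : ComputablePred WP := by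
  classical
  obtain ⟨ρ, cρ, hρ⟩ := exists_rho hf hf2
  obtain ⟨e, he⟩ : ∃ e : ℕ → ℕ, e = fun N => c + hb K N + 1 := ⟨_, rfl⟩
  have ce : Computable e := by
    rw [he]
    have h1 : Primrec (fun x : ℕ => c + x + 1) := by fun_prop
    exact h1.to_comp.comp (hb_comp hK)
  have cd : Computable (fun x : ℕ × ℕ => decide (e x.2 ≤ x.1)) := by
    have h1 : Primrec (fun x : ℕ × ℕ => decide (x.2 ≤ x.1)) := by fun_prop
    exact Computable.comp (f := fun x : ℕ × ℕ => decide (x.2 ≤ x.1))
      (g := fun x : ℕ × ℕ => (x.1, e x.2)) h1.to_comp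
      (Computable.fst.pair (ce.comp Computable.snd))
  have cm : Computable (fun x : ℕ × ℕ => x.1 % 2 ^ (e x.2)) := by
    have h1 : Primrec (fun x : ℕ × ℕ => x.1 % 2 ^ x.2) := by fun_prop
    exact Computable.comp (f := fun x : ℕ × ℕ => x.1 % 2 ^ x.2)
      (g := fun x : ℕ × ℕ => (x.1, e x.2)) h1.to_comp
      (Computable.fst.pair (ce.comp Computable.snd))
  refine genB (2 ^ (c + 1)) (K := K) cρ (fun j => (hρ j).1)
    (f := fun x : (ℕ × ℕ) × (ℕ × Inp) =>
      cond (decide (e x.2.1 ≤ x.1.1)) (A (x.1.2 % 2 ^ (e x.2.1), x.2.2)) Part.none)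
    (z := fun x : (ℕ × ℕ) × ℕ =>
      cond (decide (e x.2 ≤ x.1.1)) (size (x.1.2 % 2 ^ (e x.2), x.2)) Part.none)
    ?_ ?_ ?_ ?_ ?_
  · refine Partrec.cond ?_ ?_ Partrec.none
    · exact Computable.comp (f := fun x : ℕ × ℕ => decide (e x.2 ≤ x.1))
        (g := fun x : (ℕ × ℕ) × (ℕ × Inp) => (x.1.1, x.2.1)) cd
        ((Computable.fst.comp Computable.fst).pair (Computable.fst.comp Computable.snd))
    · refine hA.comp (Computable.pair ?_ (Computable.snd.comp Computable.snd))
      exact Computable.comp (f := fun x : ℕ × ℕ => x.1 % 2 ^ (e x.2))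
        (g := fun x : (ℕ × ℕ) × (ℕ × Inp) => (x.1.2, x.2.1)) cm
        ((Computable.snd.comp Computable.fst).pair (Computable.fst.comp Computable.snd))
  · rintro l l' i ⟨N, p⟩ b hl hb
    change b ∈ cond (decide (e N ≤ l)) (A (i % 2 ^ l % 2 ^ (e N), p)) Part.none at hb
    change b ∈ cond (decide (e N ≤ l')) (A (i % 2 ^ (e N), p)) Part.none
    by_cases h1 : e N ≤ l
    · rw [decide_eq_true h1, cond_true, Nat.mod_mod_of_dvd _ (pow_dvd_pow 2 h1)] at hb
      rw [decide_eq_true (h1.trans hl), cond_true]
      exact hb
    · rw [decide_eq_false h1, cond_false] at hb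
      exact absurd hb (Part.notMem_none _)
  · refine Partrec.cond ?_ ?_ Partrec.none
    · exact Computable.comp (f := fun x : ℕ × ℕ => decide (e x.2 ≤ x.1))
        (g := fun x : (ℕ × ℕ) × ℕ => (x.1.1, x.2)) cd
        ((Computable.fst.comp Computable.fst).pair Computable.snd)
    · refine hs.comp (Computable.pair ?_ Computable.snd)
      exact Computable.comp (f := fun x : ℕ × ℕ => x.1 % 2 ^ (e x.2))
        (g := fun x : (ℕ × ℕ) × ℕ => (x.1.2, x.2)) cm
        ((Computable.snd.comp Computable.fst).pair Computable.snd)
  · rintro l l' i N b hl hb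
    change b ∈ cond (decide (e N ≤ l)) (size (i % 2 ^ l % 2 ^ (e N), N)) Part.none at hb
    change b ∈ cond (decide (e N ≤ l')) (size (i % 2 ^ (e N), N)) Part.none
    by_cases h1 : e N ≤ l
    · rw [decide_eq_true h1, cond_true, Nat.mod_mod_of_dvd _ (pow_dvd_pow 2 h1)] at hb
      rw [decide_eq_true (h1.trans hl), cond_true]
      exact hb
    · rw [decide_eq_false h1, cond_false] at hb
      exact absurd hb (Part.notMem_none _)
  · intro j0 V
    obtain ⟨N, hN⟩ : ∃ N, N = ρ j0 := ⟨_, rfl⟩
    have hfN : j0 ≤ f N := hN ▸ (hρ j0).2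
    rw [← hN]
    obtain ⟨M, hM⟩ : ∃ M, M = hb K N := ⟨_, rfl⟩
    have heN : e N = c + M + 1 := by rw [he, hM]
    have h1 : ∀ t : ℕ, ∃ i, t < 2 ^ M → i < 2 ^ (c + M + 1) ∧
        2 ^ M + t ∈ size (i, N) ∧
        ∀ w, FewFailures (f N) K (fun p => A (i, p)) N (2 ^ M + t) w := by
      intro t
      obtain ⟨i, hi, hi2, hi3⟩ := h N (2 ^ M + t)
      refine ⟨i, fun h1 => ⟨hi.trans_le ?_, hi2, hi3⟩⟩
      have h3 : 2 ^ M + t + 1 ≤ 2 * 2 ^ M := by omega
      calc c * (2 ^ M + t + 1) ≤ 2 ^ c * (2 * 2 ^ M) :=
            Nat.mul_le_mul (Nat.lt_two_pow_self).le h3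
        _ = 2 ^ (c + M + 1) := by
            rw [pow_succ, pow_add]
            ring
    choose p hp using h1
    refine ⟨c + M + 1, (Finset.range (2 ^ M)).image p, ?_, ?_, ?_⟩
    · intro i hi
      rw [Finset.mem_image] at hi
      obtain ⟨t, ht, rfl⟩ := hi
      exact Finset.mem_range.2 (hp t (Finset.mem_range.1 ht)).1
    · rw [Finset.card_image_of_injOn]
      · rw [Finset.card_range]
        refine le_of_eq ?_
        rw [← pow_add]
        congr 1
        omega
      · intro t ht t' ht' htt
        have e1 := (hp t (Finset.mem_range.1 ht)).2.1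
        have e2 := (hp t' (Finset.mem_range.1 ht')).2.1
        have e3 : p t = p t' := htt
        rw [e3] at e1
        have e4 := Part.mem_unique e1 e2
        omega
    · intro i hi
      rw [Finset.mem_image] at hi
      obtain ⟨t, ht, rfl⟩ := hi
      obtain ⟨e1, e2, e3⟩ := hp t (Finset.mem_range.1 ht)
      have e4 : M ≤ 2 ^ M := (Nat.lt_two_pow_self).le
      refine ⟨2 ^ M + t, by omega, ?_, fun w _ => ?_⟩
      · change 2 ^ M + t ∈ cond (decide (e N ≤ c + M + 1)) (size (p t % 2 ^ (e N), N)) Part.none
        rw [heN, decide_eq_true le_rfl, cond_true, Nat.mod_eq_of_lt e1]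
        exact e2
      · have h1 := (e3 w).mono hfN
        unfold FewFailures at h1
        change {c' | c' ∈ Labels N (2 ^ M + t) ∧ ¬ ∃ b ∈ cond (decide (e N ≤ c + M + 1))
          (A (p t % 2 ^ (e N), (N, c', w))) Part.none, (b = true ↔ WP (N, c', w))}.encard
            * ((2 ^ M + t + 1) ^ j0 : ℕ) ≤ _
        rw [heN, decide_eq_true le_rfl, Nat.mod_eq_of_lt e1]
        exact h1

/-- **A threshold for the word problem of Artin groups.**

1. There is an algorithm for the word problem for all Artin groups which always halts, is right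
whenever it says that a word is trivial, and which for each word fails for at most
`n (n - 1) / 2 * (2 |w| + 1) * (H + 1) ^ (n (n - 1) / 2 - 1)` of the Artin groups of rank `n` with
labels up to `H`.

2. Let `f` be computable and unbounded. The word problem for all Artin groups is decidable,
uniformly in the labels, if and only if there is a randomised algorithm which for all `n`, `H` and
each finite set of words has, with probability at least `1 / k`, for each of these words at most
`K (n, w) * (H + 1) ^ (n (n - 1) / 2 - f n)` failures among the Artin groups of rank `n` with labels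
up to `H`, and if and only if for all `n`, `H` there is a program of length at most
`log₂ (H + 1) + log₂ c` which computes `H` from `n` and has for each word no more failures than this.

3. If there is such a randomised algorithm for the constant `r (r - 1) / 2 + 1` instead of `f n`,
then the word problem for all Artin groups of rank at most `r` is decidable, uniformly in the
labels. -/
theorem result :
    (∃ A : Inp → Bool, Computable A ∧ (∀ p, A p = true → WP p) ∧ ∀ n H w,
      FewFailures 1 (fun x => x.1 * (x.1 - 1) / 2 * (2 * x.2.length + 1))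
        (fun p => Part.some (A p)) n H w) ∧
    (∀ f : ℕ → ℕ, Computable f → (∀ a, ∃ n, a ≤ f n) →
      (ComputablePred WP ↔ ∃ (k : ℕ) (A : List Bool × Inp →. Bool) (K : ℕ × List (ℕ × Bool) → ℕ),
        Randomised A ∧ Computable K ∧ SucceedsWithProbability f k K A) ∧
      (ComputablePred WP ↔ ∃ (c : ℕ) (size : ℕ × ℕ →. ℕ) (A : ℕ × Inp →. Bool)
        (K : ℕ × List (ℕ × Bool) → ℕ), Partrec size ∧ Partrec A ∧ Computable K ∧
          ShortPrograms f c K size A)) ∧
    (∀ r : ℕ, (∃ (k : ℕ) (A : List Bool × Inp →. Bool) (K : ℕ × List (ℕ × Bool) → ℕ),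
        Randomised A ∧ Computable K ∧
          SucceedsWithProbability (fun _ => r * (r - 1) / 2 + 1) k K A) →
      ComputablePred (fun p : Inp => p.1 ≤ r ∧ WP p)) := by
  refine ⟨⟨alg, alg_comp, fun p => alg_sound, fun n H w => ?_⟩, fun f hf hf2 => ⟨⟨?_, ?_⟩, ⟨?_, ?_⟩⟩,
    ?_⟩
  · unfold FewFailures
    refine le_trans ?_ (alg_few n H w)
    refine mul_le_mul' (Set.encard_le_encard ?_) (by rw [pow_one])
    rintro l ⟨h1, h2⟩
    exact ⟨h1, fun h3 => h2 ⟨_, Part.mem_some _, h3⟩⟩
  · rintro ⟨inst, hc⟩
    refine ⟨1, fun x => Part.some (decide (WP x.2)), fun _ => 0,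
      ⟨(hc.comp Computable.snd).partrec, fun _ _ _ _ hb => hb⟩, Computable.const 0,
      fun n H W => ⟨0, ?_⟩⟩
    have h1 : {σ : List Bool | σ.length = 0 ∧ ∀ w ∈ W,
        FewFailures (f n) (fun _ => 0) (fun p => Part.some (decide (WP p))) n H w} = {[]} := by
      ext σ
      simp only [Set.mem_ofPred_eq, Set.mem_singleton_iff, List.length_eq_zero_iff]
      exact ⟨fun h => h.1, fun h => ⟨h, fun w _ => few_of_solves _ inst n H w⟩⟩
    change 2 ^ 0 ≤ 1 * {σ : List Bool | σ.length = 0 ∧ ∀ w ∈ W,
        FewFailures (f n) (fun _ => 0) (fun p => Part.some (decide (WP p))) n H w}.ncard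
    rw [h1, Set.ncard_singleton]
    norm_num
  · rintro ⟨k, A, K, hA, hK, h⟩
    exact of_random_unbounded hK hf hf2 hA h
  · rintro ⟨inst, hc⟩
    refine ⟨1, fun x => Part.some x.1, fun x => Part.some (decide (WP x.2)), fun _ => 0,
      Computable.fst.partrec, (hc.comp Computable.snd).partrec, Computable.const 0,
      fun n H => ⟨H, by omega, Part.mem_some _, fun w => few_of_solves _ inst n H w⟩⟩
  · rintro ⟨c, size, A, K, hs, hA, hK, h⟩
    exact of_programs hK hf hf2 hs hA h
  · rintro r ⟨k, A, K, hA, hK, h⟩
    exact of_random_rank hK hA h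

end Pool.Agent.Results.MP_a1ec0a_al.SmallProbabilityOfSuccess
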