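import Pool.Agent.H2.AW3.Suf

/-!
# MP_a1ec0a_al: words in which every generator occurs at most three times

Let `M` be an arbitrary Coxeter matrix and `w` a word in the generators of the Artin group `A_M` in
which every generator has at most three syllables, all with odd exponents (for example a word in the
letters `s` and `s⁻¹` in which every generator occurs at most three times). The theorem is an explicit
criterion for `w = 1`: every generator occurs not at all, or in two syllables with opposite exponents,
or it is braided with exactly one other generator (the label is `3` and the six syllables of the two
generators form, in this order, a relator of the braid group on three strands), and any two linked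
generators commute or are braided. In particular the word problem is solved for all these words in all
Artin groups, and the labels greater than `3` do not matter.
-/

set_option autoImplicit false

namespace Pool.Agent.Results.MP_a1ec0a_al.ThreeOccurrencesEach

open Pool.Agent.K7.H20.AW Pool.Agent.H2.AW3

theorem result {S : Type*} [Fintype S] [DecidableEq S] (M : CoxeterMatrix S) (w : List (S × ℤ))
    (h3 : ∀ s, syllables s w ≤ 3) (hodd : ∀ q ∈ w, Odd q.2) :
    value M w = 1 ↔
      (∀ x, sub w x x = [] ∨ (∃ k, sub w x x = [(x, k), (x, -k)]) ∨ ∃! y, Braided M w x y) ∧
        ∀ x y, x ≠ y → Linked w x y → M x y = 2 ∨ Braided M w x y :=
  (value_iff w).trans (Pool.Agent.H2.AW3.main h3 hodd)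

end Pool.Agent.Results.MP_a1ec0a_al.ThreeOccurrencesEach
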